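import Mathlib
import Pool.Agent.W528.HE.Stm

set_option autoImplicit false

namespace Pool.Agent.W670.HE.NP

open Polynomial

theorem coeff_norm {K : Type} [NormedField K] [IsAlgClosed K] [Algebra ℚ K] (P : ℚ[X])
    (hP : P.Monic) :
    ‖algebraMap ℚ K (P.coeff 0)‖ = ((P.map (algebraMap ℚ K)).roots.map (fun r => ‖r‖)).prod ∧
      (P.map (algebraMap ℚ K)).roots.card = P.natDegree := by
  have hs : (P.map (algebraMap ℚ K)).Splits := IsAlgClosed.splits _
  have hm : (P.map (algebraMap ℚ K)).Monic := hP.map _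
  have hc : (P.map (algebraMap ℚ K)).roots.card = P.natDegree := by
    have := hs.natDegree_eq_card_roots
    rw [← this, natDegree_map]
  refine ⟨?_, hc⟩
  have h := hs.coeff_zero_eq_prod_roots_of_monic hm
  rw [coeff_map] at h
  rw [h, norm_mul, norm_pow, norm_neg, norm_one, one_pow, one_mul]
  have : ∀ s : Multiset K, ‖s.prod‖ = (s.map (fun r => ‖r‖)).prod := by
    intro s
    induction s using Multiset.induction_on with
    | empty => simp
    | cons a s ih => simp [ih]
  exact this _

theorem prod_le {a : ℝ} (ha : 0 < a) (s : Multiset ℝ) (h : ∀ x ∈ s, a < x) :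
    a ^ s.card ≤ s.prod ∧ (0 < s.card → a ^ s.card < s.prod) := by
  induction s using Multiset.induction_on with
  | empty => simp
  | cons b s ih =>
    have hb : a < b := h b (Multiset.mem_cons_self b s)
    have ih' := (ih (fun x hx => h x (Multiset.mem_cons_of_mem hx))).1
    have hp : 0 < a ^ s.card := pow_pos ha _
    have : a ^ (s.card + 1) < b * s.prod := by
      rw [pow_succ, mul_comm]
      calc a * a ^ s.card < b * a ^ s.card := by nlinarith
        _ ≤ b * s.prod := by nlinarith [ha.trans hb]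
    rw [Multiset.card_cons, Multiset.prod_cons]
    exact ⟨this.le, fun _ => this⟩

theorem main : Pool.Agent.W528.HE.NP := by
  intro c _ P q t hP hn hq hC hp
  -- complex side
  obtain ⟨h1, h1c⟩ := coeff_norm (K := ℂ) P hP
  have h2 : ((P.map (algebraMap ℚ ℂ)).roots.map (fun r => ‖r‖))
      = Multiset.replicate P.natDegree ((q : ℝ) ^ t) := by
    rw [Multiset.eq_replicate]
    refine ⟨by rw [Multiset.card_map, h1c], ?_⟩
    intro b hb
    rw [Multiset.mem_map] at hb
    obtain ⟨r, hr, rfl⟩ := hb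
    apply hC
    have := (mem_roots'.1 hr).2
    rw [IsRoot.def, eval_map_algebraMap] at this
    exact this
  rw [h2, Multiset.prod_replicate] at h1
  have h3 : |P.coeff 0| = (q : ℚ) ^ (t * P.natDegree) := by
    have h4 : ((|P.coeff 0| : ℚ) : ℝ) = (((q : ℚ) ^ (t * P.natDegree) : ℚ) : ℝ) := by
      push_cast
      rw [pow_mul, ← h1]
      simp
    exact_mod_cast h4
  -- p-adic side
  obtain ⟨g1, g1c⟩ := coeff_norm (K := PadicAlgCl c) P hP
  have hq0 : ((q : ℕ) : PadicAlgCl c) ≠ 0 := by
    exact_mod_cast hq.ne'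
  have hq1 : 0 < ‖((q : ℕ) : PadicAlgCl c)‖ ^ t := pow_pos (norm_pos_iff.2 hq0) _
  have g2 := (prod_le hq1 ((P.map (algebraMap ℚ (PadicAlgCl c))).roots.map (fun r => ‖r‖)) (by
    intro x hx
    rw [Multiset.mem_map] at hx
    obtain ⟨r, hr, rfl⟩ := hx
    apply hp
    have := (mem_roots'.1 hr).2
    rw [IsRoot.def, eval_map_algebraMap] at this
    exact this)).2 (by rw [Multiset.card_map, g1c]; exact hn)
  rw [← g1, Multiset.card_map, g1c] at g2
  have g3 : ‖algebraMap ℚ (PadicAlgCl c) (P.coeff 0)‖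
      = ‖((q : ℕ) : PadicAlgCl c)‖ ^ (t * P.natDegree) := by
    rcases abs_choice (P.coeff 0) with h | h
    · rw [← h, h3, map_pow, norm_pow, map_natCast]
    · have : P.coeff 0 = -(q : ℚ) ^ (t * P.natDegree) := by rw [← h3, h, neg_neg]
      rw [this, map_neg, norm_neg, map_pow, norm_pow, map_natCast]
  rw [g3, ← pow_mul] at g2
  exact lt_irrefl _ g2

end Pool.Agent.W670.HE.NP
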